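import Pool.Agent.Lib_helper57.YF.F
import Pool.Agent.Lib_helper80.SHQ.Strip

/-!
# Few rounds of queries: the simulation with short questions (MP_675993_lc)

As in `YF`, but the question whether the string in a query belongs to the complete language is
answered by an oracle `Z`, with padded questions, and not by exhaustive search.
-/

set_option autoImplicit false
set_option linter.unusedSectionVars false

namespace Pool.Agent.DET2

open Pool.Agent.CK Pool.Agent.CKP Pool.Agent.SHQ

variable {O Z : Lang}
variable {α β γ δ : Type} [ToD α] [ToD β] [ToD γ] [ToD δ]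

theorem Ver.lift {W : ℕ → ℕ → Bool} {ℓ : ℕ → ℕ} (h : Ver O W ℓ) : Ver (join O Z) W ℓ :=
  ⟨PTime.lift h.hW, PTime.lift h.hl, h.hb⟩

/-- the padded question in polynomial time, the number in unary -/
theorem ptime_padq {P : Lang} {p : γ → List Unit} (hp : PTime P p) {w : γ → List Bool}
    (hw : PTime P w) : PTime P (fun a => padq (p a).length (w a)) := by
  have h1 : PTime P (fun a => ((p a).drop 1).drop (w a).length) := by
    have h2 := (PTime.ulen hw).udrop ((PTime.const (List.replicate 1 ())).udrop hp)
    refine h2.of_eq fun a => ?_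
    rw [udrop_eq, udrop_eq, List.length_replicate, ulen_eq, List.length_replicate]
  have h3 : PTime P (fun a => (((p a).drop 1).drop (w a).length).map fun _ => true) :=
    PTime.map (f := fun _ _ => true) h1 (PTime.const true)
  refine (PTime.append h3 (PTime.cons (PTime.const false) hw)).of_eq fun a => ?_
  unfold padq
  congr 1
  rw [List.map_const', List.length_drop, List.length_drop]

/-- the answer to a query, according to the table `T`; the oracle `Z` is asked with padding -/
def valO (Z : Lang) (W : ℕ → ℕ → Bool) (r k : ℕ) (p : List Unit) (T : List (Bool × ℕ))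
    (q : List Bool) : Bool :=
  if typ q = true then valid W r k q && (badK T (wss q) || Z (padq p.length (xx q)))
  else (ent T (colr q).length).1 && decide ((ent T (colr q).length).2 < thr q)

theorem ptime_valO {W : ℕ → ℕ → Bool} {ℓ : ℕ → ℕ} (hver : Ver O W ℓ) (r k : ℕ)
    {p : γ → List Unit} {T : γ → List (Bool × ℕ)} {q : γ → List Bool} (hp : PTime (join O Z) p)
    (hT : PTime (join O Z) T) (hq : PTime (join O Z) q) :
    PTime (join O Z) (fun a => valO Z W r k (p a) (T a) (q a)) := by
  unfold valO
  have hent := PTime.ent hT hq.colr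
  exact PTime.ite hq.typ ((PTime.valid (Ver.lift hver) r k hq).and
    ((PTime.badK hT hq.wss).or (PTime.askR (ptime_padq hp hq.xx))))
    (hent.fst.and (PTime.nat_lt hent.snd hq.thr))

section spec

variable {W : ℕ → ℕ → Bool} {r k : ℕ} {p : List Unit} {T T' : List (Bool × ℕ)} {q : List Bool}

theorem valO_congr (h : AgrT T T' (thsQ q)) : valO Z W r k p T q = valO Z W r k p T' q := by
  unfold valO
  by_cases ht : typ q = true
  · rw [if_pos ht, if_pos ht, badK_congr ht h]
  · rw [if_neg ht, if_neg ht]
    have h1 := h (ulen (colr q), thr q) (by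
      unfold thsQ
      rw [if_neg ht]
      exact List.mem_singleton.mpr rfl)
    simp only [ulen_eq, List.length_replicate] at h1
    rw [h1.1]
    congr 1
    rw [decide_eq_decide]
    exact h1.2

/-- the answer to a query, up to the question -/
theorem valO_eq_of (hT : ∀ i ≤ 3 * q.length + 1, LeastSpec W i (ent T i))
    (hb : typ q = true → valid W r k q = true → badK T (wss q) = false →
      Z (padq p.length (xx q)) = UK O (xx q)) :
    valO Z W r k p T q = CL O W r k q := by
  rw [Bool.eq_iff_iff, CL_iff]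
  unfold valO CLP
  by_cases ht : typ q = true
  · rw [if_pos ht]
    cases hv : valid W r k q with
    | false => simp [ht]
    | true =>
      cases hbad : badK T (wss q) with
      | true =>
        obtain ⟨v, hg⟩ := bad_guard (fun i hi => hT i (hi.le.trans (wss_le q))) hbad
        simp only [Bool.true_and, Bool.true_or, true_iff]
        exact Or.inr ⟨ht, trivial, Or.inr ⟨v, hg⟩⟩
      | false =>
        have h1 := noguard_of_not_bad hT hbad
        simp only [Bool.true_and, Bool.false_or]
        rw [hb ht hv hbad]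
        constructor
        · intro h
          exact Or.inr ⟨ht, trivial, Or.inl h⟩
        · rintro (⟨h, -⟩ | ⟨-, -, h | ⟨v, h⟩⟩)
          · rw [ht] at h
            exact absurd h (by simp)
          · exact h
          · rw [h1 v] at h
            exact absurd h (by simp)
  · rw [if_neg ht, Bool.and_eq_true, decide_eq_true_eq]
    have h4 := hT _ (colr_le q)
    constructor
    · rintro ⟨h5, h6⟩
      exact Or.inl ⟨by simpa using ht, _, h6, (h4.2 h5).1⟩
    · rintro (⟨-, v, hv, hW⟩ | ⟨h3, -⟩)
      · have h5 : (ent T (colr q).length).1 = true := h4.1.mpr ⟨v, hW⟩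
        refine ⟨h5, ?_⟩
        by_contra h6
        exact (h4.2 h5).2 v (lt_of_lt_of_le hv (not_lt.mp h6)) hW
      · exact absurd h3 ht

end spec

/-- one round -/
def stpO (Z : Lang) (W : ℕ → ℕ → Bool) (ℓ : ℕ → ℕ) (r k : ℕ)
    (Q : List Bool → List Bool → List (List Bool)) (p : List Unit) (σ : StA) (j : ℕ) : StA :=
  σ.map fun y => (y.1, y.2 ++ (Q y.1 y.2).map fun q => valO Z W r k p (tbA ℓ Q σ j) q)

theorem ptime_stpO {W : ℕ → ℕ → Bool} {ℓ : ℕ → ℕ} (hver : Ver O W ℓ) (r k : ℕ)
    {Q : List Bool → List Bool → List (List Bool)}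
    (hQ : PTime O (fun p : List Bool × List Bool => Q p.1 p.2)) {p : γ → List Unit} {σ : γ → StA}
    (hp : PTime (join O Z) p) (hσ : PTime (join O Z) σ) {j : γ → ℕ}
    (hj : PTime (join O Z) j) :
    PTime (join O Z) (fun a => stpO Z W ℓ r k Q (p a) (σ a) (j a)) := by
  have hQ' : PTime (join O Z) (fun p : List Bool × List Bool => Q p.1 p.2) := PTime.lift hQ
  unfold stpO
  refine PTime.map (f := fun a (y : List Bool × List Bool) => (y.1, y.2 ++ (Q y.1 y.2).map fun q =>
    valO Z W r k (p a) (tbA ℓ Q (σ a) (j a)) q)) hσ ?_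
  refine PTime.id.snd.fst.pair (PTime.append PTime.id.snd.snd ?_)
  refine PTime.map (f := fun (a : γ × (List Bool × List Bool)) q =>
    valO Z W r k (p a.1) (tbA ℓ Q (σ a.1) (j a.1)) q) (hQ'.comp PTime.id.snd) ?_
  exact ptime_valO hver r k (hp.comp PTime.id.fst.fst)
    (PTime.tbA (Ver.lift hver) hQ' (hσ.comp PTime.id.fst.fst) (hj.comp PTime.id.fst.fst))
    PTime.id.snd

section

variable {W : ℕ → ℕ → Bool} {ℓ : ℕ → ℕ} {r k : ℕ} {Q : List Bool → List Bool → List (List Bool)}

/-- the answer to one query -/
theorem valO_true (hcut : Cut W ℓ) (htot : ∀ m, ∃ v, W m v = true) {σ : StA}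
    {p : List Unit} {M : ℕ}
    (hZ : ∀ w : List Bool, w.length ^ r ≤ M → Z (padq p.length w) = UK O w) {q : List Bool}
    (hq : q ∈ curA Q σ)
    (hsh : typ q = true → valid W r k q = true →
      (∀ i < (wss q).length, LeastSpec W i (ent (wss q) i)) → (wss q).length ≤ M) :
    valO Z W r k p (tbA ℓ Q σ (jA W Q σ)) q = CL O W r k q := by
  have hagr := tbA_agr (ℓ := ℓ) hcut htot σ (Q := Q) (3 * q.length + 2)
  rw [valO_congr (agr_query hagr hq)]
  have hT : ∀ i ≤ 3 * q.length + 1, LeastSpec W i
      (ent (trueT W (3 * q.length + 2 + (nT (thsA Q σ)).length)) i) := fun i hi =>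
    trueT_spec W _ i (by omega)
  refine valO_eq_of hT fun ht hv hb => hZ _ ?_
  have h1 := hsh ht hv fun i hi => leastSpec_of_noguard hv (noguard_of_not_bad hT hb) hi
  unfold valid at hv
  rw [Bool.and_eq_true, Bool.and_eq_true, decide_eq_true_eq] at hv
  exact hv.1.1.trans h1

/-- one round with the true number -/
theorem stpO_eq (hcut : Cut W ℓ) (htot : ∀ m, ∃ v, W m v = true) {A : Lang}
    {V : List Bool → List Bool → Bool} {rr : List Bool → ℕ} {At : List Bool → ℕ → List Bool}
    (hF : FRD A (CL O W r k) Q V rr At) {p : List Unit} {M : ℕ}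
    (hZ : ∀ w : List Bool, w.length ^ r ≤ M → Z (padq p.length w) = UK O w)
    {Y : List (List Bool)} {i : ℕ}
    (hno : ∀ q ∈ curA Q (Y.map fun y => (y, At y i)), ¬ jack W r k M q) :
    stpO Z W ℓ r k Q p (Y.map fun y => (y, At y i)) (jA W Q (Y.map fun y => (y, At y i))) =
      Y.map fun y => (y, At y (i + 1)) := by
  unfold stpO
  rw [List.map_map]
  refine List.map_congr_left fun y hy => ?_
  simp only [Function.comp_apply]
  rw [hF.hs y i]
  congr 2
  refine List.map_congr_left fun q hq => ?_
  have hq' : q ∈ curA Q (Y.map fun y => (y, At y i)) :=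
    List.mem_flatMap.mpr ⟨(y, At y i), List.mem_map.mpr ⟨y, hy, rfl⟩, hq⟩
  refine valO_true hcut htot hZ hq' fun h1 h2 h3 => ?_
  by_contra h4
  exact hno q hq' ⟨h1, h2, h3, not_le.mp h4⟩

end

/-- the rounds of a family of instances, with the numbers `js` -/
def simO (Z : Lang) (W : ℕ → ℕ → Bool) (ℓ : ℕ → ℕ) (r k : ℕ)
    (Q : List Bool → List Bool → List (List Bool)) (p : List Unit) (Y : List (List Bool))
    (js : List ℕ) : StA :=
  js.foldl (stpO Z W ℓ r k Q p) (Y.map fun y => (y, []))

section

variable {W : ℕ → ℕ → Bool} {ℓ : ℕ → ℕ} {r k k1 : ℕ} {Q : List Bool → List Bool → List (List Bool)}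

theorem simO_state (hQl : ∀ y a, (Q y a).length ≤ y.length + (y.length + 2) ^ k1)
    (p : List Unit) (Y : List (List Bool)) {b : ℕ}
    (hb : ∀ y ∈ Y, y.length + (y.length + 2) ^ k1 ≤ b) (js : List ℕ) :
    (simO Z W ℓ r k Q p Y js).map Prod.fst = Y ∧
      ∀ y ∈ simO Z W ℓ r k Q p Y js, y.2.length ≤ js.length * b := by
  unfold simO
  induction js using List.reverseRecOn with
  | nil =>
    refine ⟨?_, fun y hy => ?_⟩
    · rw [List.foldl_nil, List.map_map]
      exact List.map_id _
    · rw [List.foldl_nil] at hy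
      obtain ⟨x, -, rfl⟩ := List.mem_map.mp hy
      simp
  | append_singleton l j ih =>
    rw [List.foldl_append, List.foldl_cons, List.foldl_nil]
    unfold stpO
    refine ⟨?_, fun y hy => ?_⟩
    · rw [List.map_map]
      exact ih.1
    · obtain ⟨y', hy', rfl⟩ := List.mem_map.mp hy
      simp only
      rw [List.length_append, List.length_map, List.length_append, List.length_singleton]
      have h1 := ih.2 y' hy'
      have h2 : y'.1 ∈ Y := by
        have : y'.1 ∈ List.map Prod.fst (List.foldl (stpO Z W ℓ r k Q p)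
            (List.map (fun y => (y, [])) Y) l) := List.mem_map.mpr ⟨y', hy', rfl⟩
        rwa [ih.1] at this
      have h3 := (hQl y'.1 y'.2).trans (hb y'.1 h2)
      have h4 : (l.length + 1) * b = l.length * b + b := by ring
      omega

theorem simO_sz (hQl : ∀ y a, (Q y a).length ≤ y.length + (y.length + 2) ^ k1)
    (p : List Unit) (Y : List (List Bool)) (js : List ℕ) :
    sz (simO Z W ℓ r k Q p Y js) ≤
      sz Y + sz Y * (4 * (js.length * (sz Y + (sz Y + 2) ^ k1)) + 2) := by
  obtain ⟨h1, h2⟩ := simO_state (Z := Z) (W := W) (ℓ := ℓ) (r := r) (k := k) hQl p Y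
    (b := sz Y + (sz Y + 2) ^ k1) (fun y hy => by
      have h3 := le_of_mem_list hy
      have h4 : (y.length + 2) ^ k1 ≤ (sz Y + 2) ^ k1 := Nat.pow_le_pow_left (by omega) _
      omega) js
  have h3 := sz_state _ _ h2
  rw [h1] at h3
  have h4 : (simO Z W ℓ r k Q p Y js).length ≤ sz Y := by
    have h5 : (simO Z W ℓ r k Q p Y js).length = Y.length := by
      rw [← h1, List.length_map]
      simp [h1]
    rw [h5]
    exact length_le_sz Y
  exact h3.trans (Nat.add_le_add_left (Nat.mul_le_mul_right _ h4) _)

theorem ptime_simO (hver : Ver O W ℓ) (r k : ℕ)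
    (hQ : PTime O (fun p : List Bool × List Bool => Q p.1 p.2))
    (hQl : ∀ y a, (Q y a).length ≤ y.length + (y.length + 2) ^ k1) {p : γ → List Unit}
    {Y : γ → List (List Bool)} {js : γ → List ℕ} (hp : PTime (join O Z) p)
    (hY : PTime (join O Z) Y) (hjs : PTime (join O Z) js) :
    PTime (join O Z) (fun a => simO Z W ℓ r k Q (p a) (Y a) (js a)) := by
  obtain ⟨PZ, hPZ⟩ := hY.size_le
  obtain ⟨Pj, hPj⟩ := hjs.size_le
  have hstep : PTime (join O Z) (fun a : γ × StA × ℕ =>
      stpO Z W ℓ r k Q (p a.1) a.2.1 a.2.2) :=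
    ptime_stpO hver r k hQ (hp.comp PTime.id.fst) PTime.id.snd.fst PTime.id.snd.snd
  unfold simO
  refine PTime.foldl (l := js) (i := fun a => (Y a).map fun x => (x, []))
    (s := fun a => stpO Z W ℓ r k Q (p a)) hjs
    (PTime.map (f := fun _ (x : List Bool) => (x, ([] : List Bool))) hY
      (PTime.id.snd.pair (PTime.const []))) hstep
    (PZ + PZ * (4 * (Pj * (PZ + (PZ + 2) ^ k1)) + 2)) ?_
  intro a l' hl'
  have h1 := simO_sz (Z := Z) (W := W) (ℓ := ℓ) (r := r) (k := k) hQl (p a) (Y a) l'
  unfold simO at h1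
  refine h1.trans ?_
  have h2 : l'.length ≤ Pj.eval (sz a) := (hl'.length_le.trans (length_le_sz _)).trans (hPj a)
  have h3 := hPZ a
  simp only [Polynomial.eval_add, Polynomial.eval_mul, Polynomial.eval_ofNat,
    Polynomial.eval_pow]
  refine Nat.add_le_add h3 (Nat.mul_le_mul h3 (Nat.add_le_add_right (Nat.mul_le_mul_left _
    (Nat.mul_le_mul h2 (Nat.add_le_add h3 (Nat.pow_le_pow_left (by omega) _)))) _))

/-- the simulation with the true numbers, before a long correct list is found -/
theorem simO_true (hcut : Cut W ℓ) (htot : ∀ m, ∃ v, W m v = true) {A : Lang}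
    {V : List Bool → List Bool → Bool} {rr : List Bool → ℕ} {At : List Bool → ℕ → List Bool}
    (hF : FRD A (CL O W r k) Q V rr At) {p : List Unit} {M : ℕ}
    (hZ : ∀ w : List Bool, w.length ^ r ≤ M → Z (padq p.length w) = UK O w)
    {Y : List (List Bool)} (n : ℕ)
    (hno : ∀ i < n, ∀ q ∈ curA Q (Y.map fun y => (y, At y i)), ¬ jack W r k M q) :
    simO Z W ℓ r k Q p Y ((List.range n).map fun i => jA W Q (Y.map fun y => (y, At y i))) =
      Y.map fun y => (y, At y n) := by
  induction n with
  | zero =>
    unfold simO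
    rw [List.range_zero, List.map_nil, List.foldl_nil]
    exact List.map_congr_left fun y _ => by rw [hF.h0]
  | succ n ih =>
    have h1 := ih fun i hi => hno i (by omega)
    unfold simO at h1 ⊢
    rw [List.range_succ, List.map_append, List.foldl_append, h1]
    exact stpO_eq hcut htot hF hZ (hno n (by omega))

end

end Pool.Agent.DET2
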