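import Pool.Agent.Lib_helper40.DET2.A
import Pool.Agent.Lib_helper27.DET.B

/-!
# Few rounds of queries: candidates for a batch of questions, with short questions (MP_675993_lc)
-/

set_option autoImplicit false
set_option linter.unusedSectionVars false

namespace Pool.Agent.DET2

open Pool.Agent.CK Pool.Agent.CKP Pool.Agent.SHQ

variable {O Z : Lang}
variable {α β γ δ : Type} [ToD α] [ToD β] [ToD γ] [ToD δ]

/-- candidate vectors of answers -/
def gO (Z : Lang) (W : ℕ → ℕ → Bool) (ℓ : ℕ → ℕ) (r k : ℕ)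
    (Q : List Bool → List Bool → List (List Bool)) (V : List Bool → List Bool → Bool)
    (G : List Bool → List Bool) (p g τ s : List Unit) (qs : List (List Bool)) :
    List (List Bool) :=
  (rangeU g).map fun v => qs.map fun q =>
    V (G q) (lkS (simO Z W ℓ r k Q p (qs.map G) (jsU τ s v.length)) (G q))

/-- candidates found in the queries -/
def exO (Z : Lang) (W : ℕ → ℕ → Bool) (ℓ : ℕ → ℕ) (r k : ℕ)
    (Q : List Bool → List Bool → List (List Bool))
    (G : List Bool → List Bool) (p g τ s M : List Unit) (qs : List (List Bool)) : List ℕ :=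
  (rangeU g).flatMap fun v => (rangeU (() :: τ)).flatMap fun t =>
    canE Q M (simO Z W ℓ r k Q p (qs.map G) (jsU t s v.length))

theorem gO_length {W : ℕ → ℕ → Bool} {ℓ : ℕ → ℕ} {r k : ℕ}
    {Q : List Bool → List Bool → List (List Bool)} {V : List Bool → List Bool → Bool}
    {G : List Bool → List Bool} {p g τ s : List Unit} {qs : List (List Bool)} :
    (gO Z W ℓ r k Q V G p g τ s qs).length = g.length := by
  unfold gO
  rw [List.length_map, rangeU_lenY]

theorem ptime_gO {W : ℕ → ℕ → Bool} {ℓ : ℕ → ℕ} (hver : Ver O W ℓ) (r k : ℕ) {k1 : ℕ}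
    {Q : List Bool → List Bool → List (List Bool)} {V : List Bool → List Bool → Bool}
    {G : List Bool → List Bool}
    (hQ : PTime O (fun p : List Bool × List Bool => Q p.1 p.2))
    (hQl : ∀ y a, (Q y a).length ≤ y.length + (y.length + 2) ^ k1)
    (hV : PTime O (fun p : List Bool × List Bool => V p.1 p.2)) (hG : PTime O G)
    {p g τ s : γ → List Unit} {qs : γ → List (List Bool)} (hp : PTime (join O Z) p)
    (hg : PTime (join O Z) g) (hτ : PTime (join O Z) τ) (hs : PTime (join O Z) s)
    (hqs : PTime (join O Z) qs) :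
    PTime (join O Z) (fun a => gO Z W ℓ r k Q V G (p a) (g a) (τ a) (s a) (qs a)) := by
  have hG' : PTime (join O Z) G := PTime.lift hG
  have hV' : PTime (join O Z) (fun p : List Bool × List Bool => V p.1 p.2) := PTime.lift hV
  unfold gO
  refine PTime.map (f := fun a v => (qs a).map fun q => V (G q) (CKP.lkS (simO Z W ℓ r k Q
    (p a) ((qs a).map G) (CKP.jsU (τ a) (s a) v.length)) (G q))) (PTime.rangeU hg) ?_
  refine PTime.map (f := fun (b : γ × List Unit) q => V (G q) (CKP.lkS (simO Z W ℓ r k Q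
    (p b.1) ((qs b.1).map G) (CKP.jsU (τ b.1) (s b.1) b.2.length)) (G q)))
    (hqs.comp PTime.id.fst) ?_
  have h1 : PTime (join O Z) (fun p : (γ × List Unit) × List Bool => G p.2) :=
    hG'.comp PTime.id.snd
  have h2 : PTime (join O Z) (fun p : (γ × List Unit) × List Bool => (qs p.1.1).map G) :=
    PTime.map (f := fun _ q => G q) (hqs.comp PTime.id.fst.fst) (hG'.comp PTime.id.snd)
  have h3 : PTime (join O Z) (fun p : (γ × List Unit) × List Bool =>
      CKP.jsU (τ p.1.1) (s p.1.1) p.1.2.length) :=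
    PTime.jsU (hτ.comp PTime.id.fst.fst) (hs.comp PTime.id.fst.fst) PTime.id.fst.snd.length
  exact PTime.comp (g := fun p : List Bool × List Bool => V p.1 p.2) hV'
    (h1.pair (PTime.lkS (ptime_simO hver r k hQ hQl (hp.comp PTime.id.fst.fst) h2 h3) h1))

theorem ptime_exO {W : ℕ → ℕ → Bool} {ℓ : ℕ → ℕ} (hver : Ver O W ℓ) (r k : ℕ) {k1 : ℕ}
    {Q : List Bool → List Bool → List (List Bool)} {G : List Bool → List Bool}
    (hQ : PTime O (fun p : List Bool × List Bool => Q p.1 p.2))
    (hQl : ∀ y a, (Q y a).length ≤ y.length + (y.length + 2) ^ k1) (hG : PTime O G)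
    {p g τ s M : γ → List Unit} {qs : γ → List (List Bool)} (hp : PTime (join O Z) p)
    (hg : PTime (join O Z) g) (hτ : PTime (join O Z) τ) (hs : PTime (join O Z) s)
    (hM : PTime (join O Z) M) (hqs : PTime (join O Z) qs) :
    PTime (join O Z) (fun a => exO Z W ℓ r k Q G (p a) (g a) (τ a) (s a) (M a) (qs a)) := by
  have hG' : PTime (join O Z) G := PTime.lift hG
  have hQ' : PTime (join O Z) (fun p : List Bool × List Bool => Q p.1 p.2) := PTime.lift hQ
  unfold exO
  refine PTime.flatMap (f := fun a v => (CKP.rangeU (() :: τ a)).flatMap fun t =>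
    CKP.canE Q (M a) (simO Z W ℓ r k Q (p a) ((qs a).map G) (CKP.jsU t (s a) v.length)))
    (PTime.rangeU hg) ?_
  refine PTime.flatMap (f := fun (b : γ × List Unit) t =>
    CKP.canE Q (M b.1) (simO Z W ℓ r k Q (p b.1) ((qs b.1).map G)
      (CKP.jsU t (s b.1) b.2.length)))
    (PTime.rangeU (PTime.cons (PTime.const ()) (hτ.comp PTime.id.fst))) ?_
  have h2 : PTime (join O Z) (fun p : (γ × List Unit) × List Unit => (qs p.1.1).map G) :=
    PTime.map (f := fun _ q => G q) (hqs.comp PTime.id.fst.fst) (hG'.comp PTime.id.snd)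
  have h3 : PTime (join O Z) (fun p : (γ × List Unit) × List Unit =>
      CKP.jsU p.2 (s p.1.1) p.1.2.length) :=
    PTime.jsU PTime.id.snd (hs.comp PTime.id.fst.fst) PTime.id.fst.snd.length
  exact PTime.canE hQ' (hM.comp PTime.id.fst.fst)
    (ptime_simO hver r k hQ hQl (hp.comp PTime.id.fst.fst) h2 h3)

section

variable {W : ℕ → ℕ → Bool} {ℓ : ℕ → ℕ} {r k : ℕ} {Q : List Bool → List Bool → List (List Bool)}
    {V : List Bool → List Bool → Bool} {G : List Bool → List Bool}

/-- **The true answers, or the least witness.** -/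
theorem gO_or_exO (hcut : Cut W ℓ) (htot : ∀ m, ∃ v, W m v = true) {A B : Lang}
    {rr : List Bool → ℕ} {At : List Bool → ℕ → List Bool}
    (hF : FRD A (CL O W r k) Q V rr At) (hG : ∀ w, B w = A (G w)) {p g τ s M : List Unit}
    {qs : List (List Bool)}
    (hZ : ∀ w : List Bool, w.length ^ r ≤ M.length → Z (padq p.length w) = UK O w)
    (hτ : ∀ q ∈ qs, rr (G q) ≤ τ.length)
    (hs : ∀ i < τ.length, jA W Q ((qs.map G).map fun y => (y, At y i)) < 2 ^ s.length)
    (hgτ : 2 ^ (τ.length * s.length) ≤ g.length) :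
    qs.map B ∈ gO Z W ℓ r k Q V G p g τ s qs ∨
      ∃ w ∈ exO Z W ℓ r k Q G p g τ s M qs, W M.length w = true ∧
        ∀ v, W M.length v = true → w ≤ v := by
  obtain ⟨Y, hY⟩ : ∃ Y, Y = qs.map G := ⟨_, rfl⟩
  obtain ⟨v0, hv0, hcode⟩ := exists_code s.length τ.length
    (fun i => jA W Q (Y.map fun y => (y, At y i))) (by rw [hY]; exact hs)
  have hjs : ∀ i ≤ τ.length, jsU (List.replicate i ()) s v0 =
      (List.range i).map fun i => jA W Q (Y.map fun y => (y, At y i)) := by
    intro i hi
    have h1 := jsU_eq (s := s.length) (n := i) (v := v0)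
      (j := fun i => jA W Q (Y.map fun y => (y, At y i))) fun j hj => hcode j (by omega)
    rw [yunits_eq s] at h1
    exact h1
  have hmv : List.replicate v0 () ∈ rangeU g :=
    mem_rangeU.mpr (by rw [List.length_replicate]; omega)
  by_cases hj : ∃ i, i < τ.length ∧ ∃ q ∈ curA Q (Y.map fun y => (y, At y i)),
      jack W r k M.length q
  · right
    classical
    obtain ⟨hi, q, hq, hqj⟩ := Nat.find_spec hj
    set i := Nat.find hj with hidef
    have hno : ∀ j < i, ∀ q ∈ curA Q (Y.map fun y => (y, At y j)), ¬ jack W r k M.length q := by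
      intro j hj' q hq' hqj'
      exact Nat.find_min hj hj' ⟨by omega, q, hq', hqj'⟩
    have h1 := simO_true hcut htot hF hZ (Y := Y) i hno
    obtain ⟨-, -, hL, hlt⟩ := hqj
    have hsp := hL M.length hlt
    have h2 : (ent (wss q) M.length).1 = true := hsp.1.mpr (htot _)
    have h3 := hsp.2 h2
    refine ⟨(ent (wss q) M.length).2, ?_, h3.1, fun v hv => ?_⟩
    · unfold exO
      refine List.mem_flatMap.mpr ⟨_, hmv, List.mem_flatMap.mpr ⟨List.replicate i (), ?_, ?_⟩⟩
      · exact mem_rangeU.mpr (by rw [List.length_replicate, List.length_cons]; omega)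
      · rw [List.length_replicate, ← hY, hjs i hi.le, h1]
        exact List.mem_map.mpr ⟨q, hq, rfl⟩
    · by_contra h4
      exact h3.2 v (not_le.mp h4) hv
  · left
    push Not at hj
    have h1 := simO_true hcut htot hF hZ (Y := Y) τ.length hj
    have h2 : jsU τ s v0 = (List.range τ.length).map fun i =>
        jA W Q (Y.map fun y => (y, At y i)) := by
      have := hjs τ.length le_rfl
      rw [yunits_eq τ] at this
      exact this
    unfold gO
    refine List.mem_map.mpr ⟨_, hmv, ?_⟩
    rw [List.length_replicate, ← hY, h2, h1]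
    refine List.map_congr_left fun q hq => ?_
    have hmem : G q ∈ Y := by
      rw [hY]
      exact List.mem_map.mpr ⟨q, hq, rfl⟩
    rw [lkS_eq hmem, hF.hv _ _ (hτ _ hq), hG]

end

end Pool.Agent.DET2
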