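import Pool.Agent.Lib_helper40.DET2.B
import Pool.Agent.Lib_helper27.DET.P
import Pool.Agent.Lib_helper78.TT.W1
import Pool.Agent.Lib_helper23.DET.D4

/-!
# Few rounds of queries: the deterministic search with short questions (MP_675993_lc)
-/

set_option autoImplicit false
set_option linter.unusedSectionVars false

namespace Pool.Agent.DET2

open Pool.Agent.CK Pool.Agent.CKP Pool.Agent.PSL Pool.Agent.PCL Pool.Agent.TT Pool.Agent.DET
open Pool.Agent.SHQ (padq)

variable {O Z : Lang}
variable {α β γ δ : Type} [ToD α] [ToD β] [ToD γ] [ToD δ]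

/-- the search of a witness for `|M|` less than `u` -/
def srchO (O Z : Lang) (W : ℕ → ℕ → Bool) (ℓ : ℕ → ℕ) (r k : ℕ)
    (Q : List Bool → List Bool → List (List Bool)) (V : List Bool → List Bool → Bool)
    (G : List Bool → List Bool) (d : Cmd) (kk : ℕ) (p g τ s N M : List Unit) (u : ℕ) : Bool :=
  ((search (gO Z W ℓ r k Q V G p g τ s) O d kk (q1 M u) N).any fun y => chk W M u (ofBits y)) ||
    (asked (gO Z W ℓ r k Q V G p g τ s) (q1 M u) N).any fun qs =>
      (exO Z W ℓ r k Q G p g τ s M qs).any fun w => chk W M u w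

section

variable {W : ℕ → ℕ → Bool} {ℓ : ℕ → ℕ} {r k k1 : ℕ} {Q : List Bool → List Bool → List (List Bool)}
    {V : List Bool → List Bool → Bool} {G : List Bool → List Bool} {d : Cmd} {kk : ℕ}

theorem ptime_srchO (hver : Ver O W ℓ) (r k : ℕ)
    (hQ : PTime O (fun p : List Bool × List Bool => Q p.1 p.2))
    (hQl : ∀ y a, (Q y a).length ≤ y.length + (y.length + 2) ^ k1)
    (hV : PTime O (fun p : List Bool × List Bool => V p.1 p.2)) (hG : PTime O G) (d : Cmd) (kk : ℕ)
    {p g τ s N M : γ → List Unit} {u : γ → ℕ} (hp : PTime (join O Z) p)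
    (hg : PTime (join O Z) g) (hτ : PTime (join O Z) τ) (hs : PTime (join O Z) s)
    (hN : PTime (join O Z) N) (hM : PTime (join O Z) M) (hu : PTime (join O Z) u) :
    PTime (join O Z) (fun a => srchO O Z W ℓ r k Q V G d kk (p a) (g a) (τ a) (s a) (N a) (M a)
      (u a)) := by
  have hO : PTime (join O Z) O := PTime.lift (PTime.ask PTime.id)
  have hq : PTime (join O Z) (fun a => q1 (M a) (u a)) := by
    unfold q1
    exact PTime.enc ((PTime.const D.nil).consD (hM.code.consD hu.code))
  have hgO : PTime (join O Z) (fun q : γ × List (List Bool) =>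
      gO Z W ℓ r k Q V G (p q.1) (g q.1) (τ q.1) (s q.1) q.2) :=
    ptime_gO hver r k hQ hQl hV hG (hp.comp PTime.id.fst) (hg.comp PTime.id.fst)
      (hτ.comp PTime.id.fst) (hs.comp PTime.id.fst) PTime.id.snd
  unfold srchO
  refine PTime.or ?_ ?_
  · refine PTime.any (f := fun a y => CKP.chk W (M a) (u a) (CKP.ofBits y))
      (ptime_search (G := fun a => gO Z W ℓ r k Q V G (p a) (g a) (τ a) (s a)) hO d kk hgO hq hN)
      ?_
    exact PTime.chk (Ver.lift hver) (hM.comp PTime.id.fst) (hu.comp PTime.id.fst)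
      (PTime.ofBits PTime.id.snd)
  · refine PTime.any (f := fun a qs => (exO Z W ℓ r k Q G (p a) (g a) (τ a) (s a) (M a) qs).any
      fun w => CKP.chk W (M a) (u a) w)
      (ptime_asked (G := fun a => gO Z W ℓ r k Q V G (p a) (g a) (τ a) (s a)) hgO hq hN) ?_
    refine PTime.any (f := fun (b : γ × List (List Bool)) w => CKP.chk W (M b.1) (u b.1) w) ?_ ?_
    · exact ptime_exO hver r k hQ hQl hG (hp.comp PTime.id.fst) (hg.comp PTime.id.fst)
        (hτ.comp PTime.id.fst) (hs.comp PTime.id.fst) (hM.comp PTime.id.fst) PTime.id.snd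
    · exact PTime.chk (Ver.lift hver) (hM.comp PTime.id.fst.fst) (hu.comp PTime.id.fst.fst)
        PTime.id.snd

theorem chk_iff {M : List Unit} {u w : ℕ} : chk W M u w = true ↔ W M.length w = true ∧ w < u := by
  unfold chk
  rw [Bool.and_eq_true, decide_eq_true_eq]

theorem srchO_sound {p g τ s N M : List Unit} {u : ℕ}
    (h : srchO O Z W ℓ r k Q V G d kk p g τ s N M u = true) : ∃ v < u, W M.length v = true := by
  unfold srchO at h
  rw [Bool.or_eq_true, List.any_eq_true, List.any_eq_true] at h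
  rcases h with ⟨y, -, h⟩ | ⟨qs, -, h⟩
  · exact ⟨_, (chk_iff.mp h).2, (chk_iff.mp h).1⟩
  · rw [List.any_eq_true] at h
    obtain ⟨w, -, h⟩ := h
    exact ⟨w, (chk_iff.mp h).2, (chk_iff.mp h).1⟩

/-- **The search is complete.** -/
theorem exists_srchO (hcut : Cut W ℓ) (htot : ∀ m, ∃ v, W m v = true)
    {rr : List Bool → ℕ} {At : List Bool → ℕ → List Bool}
    (hF : FRD (UK O) (CL O W r k) Q V rr At)
    (hG : ∀ w, QL O d kk w = UK O (G w))
    (hd1 : ∀ (M : List Unit) (u : ℕ) (y : List Bool), wit O d kk (q1 M u) y = true →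
      chk W M u (ofBits y) = true)
    (hd2 : ∀ (M : List Unit) (u v : ℕ), W M.length v = true → v < u →
      ∃ y, wit O d kk (q1 M u) y = true) :
    ∃ e : ℕ, ∀ (Z : Lang) (p g τ s N M : List Unit) (u : ℕ), (q1 M u).length ≤ N.length →
      ((q1 M u).length + 2) ^ kk < N.length →
      (∀ w : List Bool, w.length ^ r ≤ M.length → Z (padq p.length w) = UK O w) →
      (∀ y, rr y ≤ τ.length) →
      (∀ qs : List (List Bool), sz qs ≤ (N.length + 2) ^ e → ∀ i < τ.length,
        jA W Q ((qs.map G).map fun y => (y, At y i)) < 2 ^ s.length) →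
      2 ^ (τ.length * s.length) ≤ g.length → g.length < 2 ^ N.length →
      (∃ v < u, W M.length v = true) →
      srchO O Z W ℓ r k Q V G d kk p g τ s N M u = true := by
  obtain ⟨e, he⟩ := search_asked (O := O) d kk (QL_qcode d kk)
  refine ⟨e, fun Z p g τ s N M u h1 h2 hZ hrr hs hgτ hgN hv => ?_⟩
  obtain ⟨v, hvu, hv⟩ := hv
  have h3 := he (gO Z W ℓ r k Q V G p g τ s) (q1 M u) N h1 h2 (fun qs _ => by
    rw [gO_length]
    exact hgN) (hd2 M u v hv hvu)
  unfold srchO
  rw [Bool.or_eq_true, List.any_eq_true, List.any_eq_true]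
  rcases h3 with h3 | ⟨qs, hqs, hsz, h3⟩
  · left
    obtain ⟨y, hy⟩ := List.exists_mem_of_ne_nil _ h3
    exact ⟨y, hy, hd1 M u y (search_sound y hy)⟩
  · right
    refine ⟨qs, hqs, ?_⟩
    rcases gO_or_exO (Z := Z) hcut htot hF hG (g := g) (s := s) (qs := qs) hZ
      (fun q _ => hrr (G q)) (hs qs hsz) hgτ with h4 | ⟨w, hw, hw1, hw2⟩
    · exact absurd h4 h3
    · rw [List.any_eq_true]
      exact ⟨w, hw, chk_iff.mpr ⟨hw1, lt_of_le_of_lt (hw2 v hv) hvu⟩⟩

end

/-! ### the numbers -/

/-- a bound for the number of guesses -/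
def gbO (R e2 N : ℕ) : ℕ := (2 * (2 * (N + 2)) ^ e2) ^ R

theorem gbO_upoly (R e2 : ℕ) : UPoly O (gbO R e2) := by
  unfold gbO
  exact ((UPoly.const 2).mul (((UPoly.const 2).mul (UPoly.id.add (UPoly.const 2))).pow e2)).pow R

theorem gbO_ge (R e2 N : ℕ) : 2 ^ (R * sJ e2 N) ≤ gbO R e2 N := by
  unfold gbO
  rw [mul_comm, pow_mul]
  refine Nat.pow_le_pow_left ?_ R
  unfold sJ
  rw [Nat.size_eq_bits_len, pow_succ, mul_comm]
  refine Nat.mul_le_mul_left 2 ?_
  rw [mul_comm, pow_mul]
  refine Nat.pow_le_pow_left ?_ e2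
  have h4 : 0 < (N + 2).size := Nat.size_pos.mpr (by omega)
  have h2 : 2 ^ ((N + 2).size - 1) ≤ N + 2 := by
    by_contra h4
    rw [not_le] at h4
    have h5 := Nat.size_le.mpr h4
    have h6 : 0 < (N + 2).size := Nat.size_pos.mpr (by omega)
    omega
  have h5 : 2 ^ (N + 2).size = 2 ^ ((N + 2).size - 1) * 2 := by
    rw [← pow_succ]
    congr 1
    omega
  rw [h5]
  omega

/-- the number of guesses is small, for large arguments -/
theorem gbO_lt {R e2 κ N : ℕ} (hκ : 2 ≤ κ) (h : (1 + 2 * e2) * R ≤ N) :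
    gbO R e2 N < 2 ^ (N + 2) ^ κ := by
  have h1 : gbO R e2 N ≤ (N + 2) ^ ((1 + 2 * e2) * R) := by
    unfold gbO
    rw [pow_mul]
    refine Nat.pow_le_pow_left ?_ R
    rw [pow_add, pow_one, pow_mul]
    refine Nat.mul_le_mul (by omega) (Nat.pow_le_pow_left ?_ e2)
    nlinarith [Nat.zero_le N]
  have h2 : N + 2 < 2 ^ (N + 2) := Nat.lt_two_pow_self
  rcases Nat.eq_zero_or_pos ((1 + 2 * e2) * R) with h0 | h0
  · rw [h0, pow_zero] at h1
    refine lt_of_le_of_lt h1 (Nat.one_lt_two_pow ?_)
    positivity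
  · calc gbO R e2 N ≤ (N + 2) ^ ((1 + 2 * e2) * R) := h1
      _ < (2 ^ (N + 2)) ^ ((1 + 2 * e2) * R) := Nat.pow_lt_pow_left h2 (by omega)
      _ = 2 ^ ((N + 2) * ((1 + 2 * e2) * R)) := by rw [← pow_mul]
      _ ≤ 2 ^ (N + 2) ^ κ := by
        refine Nat.pow_le_pow_right (by norm_num) ?_
        calc (N + 2) * ((1 + 2 * e2) * R) ≤ (N + 2) * (N + 2) := Nat.mul_le_mul_left _ (by omega)
          _ = (N + 2) ^ 2 := by ring
          _ ≤ (N + 2) ^ κ := Nat.pow_le_pow_right (by omega) hκ

theorem lt_two_pow_sJ {j e2 N : ℕ} (h : j ≤ (N + 2) ^ e2) : j < 2 ^ sJ e2 N := by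
  unfold sJ
  rw [Nat.size_eq_bits_len]
  have h3 : N + 2 < 2 ^ (N + 2).size := Nat.lt_size_self _
  refine lt_of_le_of_lt (h.trans (Nat.pow_le_pow_left h3.le e2)) ?_
  rw [← pow_mul, mul_comm]
  exact Nat.pow_lt_pow_right (by norm_num) (by omega)

/-! ### the decision -/

/-- the length of the questions; `N` is a power of `2 ^ (n + 1)` -/
def sclO (ρ N n : ℕ) : ℕ := rt ρ N + n

/-- the decision -/
def solO (O Z : Lang) (W : ℕ → ℕ → Bool) (ℓ : ℕ → ℕ) (r k : ℕ)
    (Q : List Bool → List Bool → List (List Bool)) (V : List Bool → List Bool → Bool)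
    (G : List Bool → List Bool) (d : Cmd) (kk ρ R e2 κ : ℕ) (ans : List Unit → ℕ → Bool)
    (N : List Unit) (x : List Bool) : Bool :=
  ans (toNum N x) (gfind (srchO O Z W ℓ r k Q V G d kk
    (List.replicate (sclO ρ N.length x.length) ()) (List.replicate (gbO R e2 N.length) ())
    (List.replicate R ()) (List.replicate (sJ e2 N.length) ())
    (List.replicate ((N.length + 2) ^ κ) ()) (toNum N x))
    (List.replicate (ℓ (toNum N x).length) ())).2

section

variable {W : ℕ → ℕ → Bool} {ℓ : ℕ → ℕ} {r k k1 : ℕ} {Q : List Bool → List Bool → List (List Bool)}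
    {V : List Bool → List Bool → Bool} {G : List Bool → List Bool} {ans : List Unit → ℕ → Bool}
    {d : Cmd} {kk : ℕ}

theorem ptime_sclO {P : Lang} (ρ : ℕ) {N : γ → List Unit} {x : γ → List Bool}
    (hN : PTime P N) (hx : PTime P x) :
    PTime P (fun a => List.replicate (sclO ρ (N a).length (x a).length) ()) := by
  have h1 : PTime P (fun a => List.replicate (rt ρ (N a).length) ()) :=
    UPoly.comp (g := rt ρ) (rt_upoly ρ) hN
  refine (PTime.append h1 (PTime.ulen hx)).of_eq fun a => ?_
  unfold sclO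
  rw [ulen_eq, ← List.replicate_add]

theorem ptime_solO (hver : Ver O W ℓ) (r k : ℕ)
    (hQ : PTime O (fun p : List Bool × List Bool => Q p.1 p.2))
    (hQl : ∀ y a, (Q y a).length ≤ y.length + (y.length + 2) ^ k1)
    (hV : PTime O (fun p : List Bool × List Bool => V p.1 p.2)) (hG : PTime O G)
    (d : Cmd) (kk ρ R e2 κ : ℕ) (hans : PTime O (fun p : List Unit × ℕ => ans p.1 p.2))
    {N : γ → List Unit} {x : γ → List Bool} (hN : PTime (join O Z) N)
    (hx : PTime (join O Z) x) :
    PTime (join O Z) (fun a => solO O Z W ℓ r k Q V G d kk ρ R e2 κ ans (N a) (x a)) := by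
  unfold solO
  have hl : UPoly (join O Z) ℓ := PTime.lift hver.hl
  have hans' : PTime (join O Z) (fun p : List Unit × ℕ => ans p.1 p.2) := PTime.lift hans
  have hM : PTime (join O Z) (fun a => CKP.toNum (N a) (x a)) := PTime.toNum hN hx
  have hn : PTime (join O Z) (fun a => List.replicate (ℓ (CKP.toNum (N a) (x a)).length) ()) :=
    UPoly.comp hl hM
  have hκ : UPoly (join O Z) (fun n => (n + 2) ^ κ) := (UPoly.id.add (UPoly.const 2)).pow κ
  have hg : PTime (join O Z) (fun b : γ × ℕ => srchO O Z W ℓ r k Q V G d kk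
      (List.replicate (sclO ρ (N b.1).length (x b.1).length) ())
      (List.replicate (gbO R e2 (N b.1).length) ()) (List.replicate R ())
      (List.replicate (sJ e2 (N b.1).length) ()) (List.replicate (((N b.1).length + 2) ^ κ) ())
      (CKP.toNum (N b.1) (x b.1)) b.2) :=
    ptime_srchO hver r k hQ hQl hV hG d kk
      (ptime_sclO ρ (hN.comp PTime.id.fst) (hx.comp PTime.id.fst))
      (UPoly.comp (g := gbO R e2) (gbO_upoly R e2) (hN.comp PTime.id.fst)) (PTime.const _)
      (UPoly.comp (g := sJ e2) (sJ_upoly e2) (hN.comp PTime.id.fst))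
      (UPoly.comp (g := fun n => (n + 2) ^ κ) hκ (hN.comp PTime.id.fst))
      (hM.comp PTime.id.fst) PTime.id.snd
  have hf : PTime (join O Z) (fun a => (gfind (srchO O Z W ℓ r k Q V G d kk
      (List.replicate (sclO ρ (N a).length (x a).length) ())
      (List.replicate (gbO R e2 (N a).length) ()) (List.replicate R ())
      (List.replicate (sJ e2 (N a).length) ()) (List.replicate (((N a).length + 2) ^ κ) ())
      (CKP.toNum (N a) (x a)))
      (List.replicate (ℓ (CKP.toNum (N a) (x a)).length) ())).2) :=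
    (PTime.gfind (g := fun a t => srchO O Z W ℓ r k Q V G d kk
      (List.replicate (sclO ρ (N a).length (x a).length) ())
      (List.replicate (gbO R e2 (N a).length) ()) (List.replicate R ())
      (List.replicate (sJ e2 (N a).length) ()) (List.replicate (((N a).length + 2) ^ κ) ())
      (CKP.toNum (N a) (x a)) t) hn hg).snd
  have h9 := hans'.comp (hM.pair hf)
  simp only at h9
  exact h9

/-- **The decision is right.** -/
theorem solO_eq (hver : Ver O W ℓ) (htot : ∀ m, ∃ v, W m v = true)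
    {L : Lang} (hansL : ∀ (x : List Bool) (s : Bool × ℕ), LeastSpec W (num x) s →
      ans (List.replicate (num x) ()) s.2 = L x) {ρ R e2 κ : ℕ} {N : List Unit} {x : List Bool}
    (hN : num x ≤ N.length)
    (hS : ∀ u ≤ 2 ^ ℓ (num x), (∃ v < u, W (num x) v = true) →
      srchO O Z W ℓ r k Q V G d kk (List.replicate (sclO ρ N.length x.length) ())
        (List.replicate (gbO R e2 N.length) ()) (List.replicate R ())
        (List.replicate (sJ e2 N.length) ()) (List.replicate ((N.length + 2) ^ κ) ())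
        (List.replicate (num x) ()) u = true) :
    solO O Z W ℓ r k Q V G d kk ρ R e2 κ ans N x = L x := by
  have hM : toNum N x = List.replicate (num x) () := toNum_eq _ _ hN
  obtain ⟨m, hm⟩ : ∃ m, m = num x := ⟨_, rfl⟩
  unfold solO
  rw [hM]
  simp only [List.length_replicate]
  rw [← hm] at hS ⊢
  set g := srchO O Z W ℓ r k Q V G d kk (List.replicate (sclO ρ N.length x.length) ())
        (List.replicate (gbO R e2 N.length) ()) (List.replicate R ())
        (List.replicate (sJ e2 N.length) ()) (List.replicate ((N.length + 2) ^ κ) ())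
        (List.replicate m ()) with hg
  have hgg : ∀ t ∈ visT (gSt W m) (List.replicate (ℓ m) ()), g t = gSt W m t := by
    intro t ht
    have htle : t ≤ 2 ^ ℓ m := by
      have := visT_le _ _ t ht
      rwa [List.length_replicate] at this
    rw [Bool.eq_iff_iff, gSt_iff]
    constructor
    · intro h
      rw [hg] at h
      obtain ⟨w, hw, hW⟩ := srchO_sound h
      rw [List.length_replicate] at hW
      exact ⟨w, hw, hW⟩
    · intro h
      exact hS t htle h
  rw [gfind_congr hgg]
  have hsp := gfind_spec (g := gSt W m) (P := fun v => W m v = true) (L := ℓ m)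
    (fun t _ => gSt_iff) (fun v hv => hver.hb m v hv)
  have h1 := hsp.1.mpr (htot m)
  have h2 := hsp.2.1 h1
  have h3 : LeastSpec W (num x) (gfind (gSt W m) (List.replicate (ℓ m) ())) := by
    rw [← hm]
    refine ⟨hsp.1, fun _ => ⟨h2.1, fun v hv h => h2.2 v hv h⟩⟩
  rw [hm] at h3 ⊢
  exact hansL x _ h3

end

end Pool.Agent.DET2
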