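import Pool.Agent.Lib_helper40.DET2.C
import Pool.Agent.Lib_helper57.YF.I

/-!
# Few rounds of queries: exponential time with short questions (MP_675993_lc)
-/

set_option autoImplicit false
set_option linter.unusedSectionVars false

namespace Pool.Agent.DET2

open Pool.Agent.CK Pool.Agent.CKP Pool.Agent.PSL Pool.Agent.PCL Pool.Agent.TT Pool.Agent.DET
open Pool.Agent.SHQ (padq Dec strip_padq length_padq)

variable {O : Lang}

/-- powers of powers -/
theorem pow_pow_le' (N κ e : ℕ) : ((N + 2) ^ κ + 2) ^ e ≤ (N + 2) ^ ((κ + 2) * e) := by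
  rw [pow_mul]
  refine Nat.pow_le_pow_left ?_ e
  have h1 : 1 ≤ (N + 2) ^ κ := Nat.one_le_pow _ _ (by omega)
  have h2 : (N + 2) ^ (κ + 2) = (N + 2) ^ κ * ((N + 2) * (N + 2)) := by ring
  have h3 : 4 ≤ (N + 2) * (N + 2) := by nlinarith [Nat.zero_le N]
  have h4 : (N + 2) ^ κ * 4 ≤ (N + 2) ^ κ * ((N + 2) * (N + 2)) := Nat.mul_le_mul_left _ h3
  omega

theorem nat_le_exp {ε : ℝ} (hε : 0 < ε) : ∃ C : ℝ, 0 ≤ C ∧ ∀ n : ℕ,
    (n : ℝ) ≤ C * (2 : ℝ) ^ (ε * n) := by
  have hlog : 0 < Real.log 2 := Real.log_pos (by norm_num)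
  refine ⟨1 / (ε * Real.log 2), by positivity, fun n => ?_⟩
  have h1 := Real.add_one_le_exp (Real.log 2 * (ε * n))
  rw [Real.rpow_def_of_pos (by norm_num)]
  rw [div_mul_eq_mul_div, one_mul, le_div_iff₀ (by positivity)]
  nlinarith

/-- the length of the questions is small -/
theorem sclO_growth {K r : ℕ} (hK : 1 ≤ K) (hr : 1 ≤ r) {ε : ℝ} (hε : 0 < ε)
    (hrε : 1 / (r : ℝ) < ε) : ∃ a : ℕ, ∀ n : ℕ,
    ((sclO (K * r) (2 ^ (K * (n + 1))) n : ℕ) : ℝ) ≤ a * (2 : ℝ) ^ (ε * n) := by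
  obtain ⟨C, hC, h⟩ := nat_le_exp hε
  refine ⟨⌈C⌉₊ + 3, fun n => ?_⟩
  have hr0 : (0 : ℝ) < r := by exact_mod_cast (by omega : 0 < r)
  have hK0 : (0 : ℝ) < K := by exact_mod_cast (by omega : 0 < K)
  have hr1 : (1 : ℝ) ≤ r := by exact_mod_cast hr
  have h1 : ((rt (K * r) (2 ^ (K * (n + 1))) : ℕ) : ℝ) ≤
      ((2 ^ (K * (n + 1)) : ℕ) : ℝ) ^ (1 / ((K * r : ℕ) : ℝ)) + 1 :=
    rt_le (Nat.mul_pos (by omega) (by omega))
  have h2 : ((2 ^ (K * (n + 1)) : ℕ) : ℝ) ^ (1 / ((K * r : ℕ) : ℝ)) =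
      (2 : ℝ) ^ (((n : ℝ) + 1) / r) := by
    push_cast
    rw [← Real.rpow_natCast (2 : ℝ) (K * (n + 1)), ← Real.rpow_mul (by norm_num)]
    congr 1
    push_cast
    field_simp
  have h3 : (2 : ℝ) ^ (((n : ℝ) + 1) / r) ≤ 2 * (2 : ℝ) ^ (ε * n) := by
    have h4 : 2 * (2 : ℝ) ^ (ε * n) = (2 : ℝ) ^ (ε * n + 1) := by
      rw [Real.rpow_add (by norm_num), Real.rpow_one]
      ring
    rw [h4]
    refine Real.rpow_le_rpow_of_exponent_le (by norm_num) ?_
    have h5 : (n : ℝ) / r ≤ ε * n := by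
      have h6 : (n : ℝ) / r = 1 / (r : ℝ) * n := by ring
      rw [h6]
      exact mul_le_mul_of_nonneg_right hrε.le (Nat.cast_nonneg _)
    have h6 : (1 : ℝ) / r ≤ 1 := by
      rw [div_le_one hr0]
      exact hr1
    rw [add_div]
    linarith
  have h4 : (1 : ℝ) ≤ (2 : ℝ) ^ (ε * n) :=
    Real.one_le_rpow (by norm_num) (mul_nonneg hε.le (Nat.cast_nonneg _))
  have h5 := h n
  have h6 : C ≤ (⌈C⌉₊ : ℝ) := Nat.le_ceil C
  have h7 : C * (2 : ℝ) ^ (ε * n) ≤ (⌈C⌉₊ : ℝ) * (2 : ℝ) ^ (ε * n) :=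
    mul_le_mul_of_nonneg_right h6 (by positivity)
  unfold sclO
  push_cast at h1 h2 ⊢
  rw [h2] at h1
  nlinarith

/-- **Exponential time with short questions, for a fixed oracle.** -/
theorem et_core {L : Lang} (hL : InENP O L)
    (hred : ∀ C, TuringComplete O C → ∃ (Q : List Bool → List Bool → List (List Bool))
      (V : List Bool → List Bool → Bool) (rr : List Bool → ℕ) (At : List Bool → ℕ → List Bool)
      (k1 R : ℕ), PTime O (fun p : List Bool × List Bool => Q p.1 p.2) ∧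
      PTime O (fun p : List Bool × List Bool => V p.1 p.2) ∧ (∀ x, rr x ≤ R) ∧
      (∀ y a, (Q y a).length ≤ y.length + (y.length + 2) ^ k1) ∧ FRD (UK O) C Q V rr At)
    {ε : ℝ} (hε : 0 < ε) : ∃ (p : ℕ → ℕ) (a : ℕ),
    (∀ m, ∃ n0, ∀ n, n0 ≤ n → m < p n) ∧ (∀ n : ℕ, (p n : ℝ) ≤ a * (2 : ℝ) ^ (ε * n)) ∧
    ∀ Z : Lang, ∃ (c : Cmd) (k : ℕ), ∀ x : List Bool,
      (∀ u : List Bool, u.length = p x.length → Z u = UK O (SHQ.strip u)) →
        Dec (join O Z) c k L x := by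
  obtain ⟨r, hr, hrε⟩ := exists_r hε
  obtain ⟨W, ℓ, ans, hver, hcut, htot, hans, hansL⟩ := core_nest hL
  obtain ⟨k, hk⟩ := CL_complete hver
  obtain ⟨Q, V, rr, At, k1, R, hQ, hV, hrr, hQl, hF⟩ := hred _ (hk r hr)
  obtain ⟨d, kk, hd1, hd2⟩ := exists_verD hver
  obtain ⟨G, hG, hGU⟩ := UK_hard (QL_inNP (O := O) d kk)
  obtain ⟨e, he⟩ := exists_srchO hcut htot hF hGU hd1 hd2
  obtain ⟨κ, hκ4, hκ⟩ := exists_kap hver kk
  obtain ⟨e1, he1⟩ := exists_boundsD (W := W) hF hG hQ hQl ((κ + 2) * e)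
  obtain ⟨e2, he2⟩ := he1 R
  obtain ⟨K, hK⟩ : ∃ K, K = (1 + 2 * e2) * R + 1 := ⟨_, rfl⟩
  obtain ⟨a, ha⟩ := sclO_growth (K := K) (r := r) (by omega) hr hε hrε
  refine ⟨fun n => sclO (K * r) (2 ^ (K * (n + 1))) n, a, fun m => ⟨m + 1, fun n hn => ?_⟩, ha,
    fun Z => ?_⟩
  · exact lt_of_lt_of_le (Nat.lt_of_succ_le hn) (Nat.le_add_left n _)
  obtain ⟨c, k', hc⟩ := inE_of_typed (O := join O Z)
    (L := fun x => solO O Z W ℓ r k Q V G d kk (K * r) R e2 κ ans
      (List.replicate (2 ^ (K * (x.length + 1))) ()) x)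
    (F := fun N x => solO O Z W ℓ r k Q V G d kk (K * r) R e2 κ ans N x)
    (ptime_solO hver r k hQ hQl hV hG d kk (K * r) R e2 κ hans PTime.id.fst PTime.id.snd) K
    (fun x => rfl)
  refine ⟨c, k', fun x hx => ?_⟩
  obtain ⟨N, hN⟩ : ∃ N, N = 2 ^ (K * (x.length + 1)) := ⟨_, rfl⟩
  have hnN : 2 ^ (x.length + 1) ≤ N := by
    rw [hN]
    exact Nat.pow_le_pow_right (by norm_num) (Nat.le_mul_of_pos_left _ (by omega))
  have hxN : num x ≤ N := (num_lt x).le.trans hnN
  have hKN : K ≤ N := by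
    rw [hN]
    refine (Nat.lt_two_pow_self (n := K)).le.trans (Nat.pow_le_pow_right (by norm_num) ?_)
    exact Nat.le_mul_of_pos_right _ (by omega)
  have hkey : solO O Z W ℓ r k Q V G d kk (K * r) R e2 κ ans
      (List.replicate (2 ^ (K * (x.length + 1))) ()) x = L x := by
    rw [← hN]
    refine solO_eq hver htot hansL (by rw [List.length_replicate]; exact hxN) fun u hu hv => ?_
    simp only [List.length_replicate]
    have h1 := hκ N (List.replicate (num x) ()) u (by rw [List.length_replicate]; exact hxN)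
      (by rw [List.length_replicate]; exact hu)
    refine he Z _ _ _ _ _ _ u ?_ ?_ ?_ ?_ ?_ ?_ ?_ ?_
    · rw [List.length_replicate]
      exact h1.1
    · rw [List.length_replicate]
      exact h1.2
    · intro w hw
      rw [List.length_replicate] at hw ⊢
      have h2 : w.length ^ (K * r) ≤ N := by
        rw [mul_comm, pow_mul]
        refine (Nat.pow_le_pow_left (hw.trans (num_lt x).le) K).trans ?_
        rw [hN, ← pow_mul, mul_comm]
      have h3 := rt_ge (r := K * r) (Nat.mul_pos (by omega) (by omega)) h2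
      have h4 : w.length < sclO (K * r) N x.length := by
        unfold sclO
        omega
      rw [hx _ (by rw [length_padq h4, hN]), strip_padq]
    · intro y
      rw [List.length_replicate]
      exact hrr y
    · intro qs hqs i hi
      rw [List.length_replicate] at hqs hi
      rw [List.length_replicate]
      refine lt_two_pow_sJ ((he2 N qs (hqs.trans (pow_pow_le' N κ e))).2 i ?_)
      refine hi.le.trans ((Nat.lt_two_pow_self (n := R)).le.trans ?_)
      exact Nat.pow_le_pow_left (by omega) R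
    · rw [List.length_replicate, List.length_replicate, List.length_replicate]
      exact gbO_ge R e2 N
    · rw [List.length_replicate, List.length_replicate]
      exact gbO_lt (by omega) (by omega)
    · rw [List.length_replicate]
      exact hv
  have h1 := hc x
  simp only at h1
  rw [hkey] at h1
  exact h1

end Pool.Agent.DET2
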