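import Pool.Agent.Lib_helper40.DET2.E
import Pool.Agent.Lib_helper57.DET2.Cr
import Pool.Agent.Lib_helper80.SHQ.Fin

/-!
# A constant number of rounds of queries: exponential time with short questions (MP_675993_lc)
-/

set_option autoImplicit false
set_option linter.unusedSectionVars false

namespace Pool.Agent.DET2

open Pool.Agent.CK Pool.Agent.CKP
open Pool.Agent.SHQ (Dec UKp UKp_inNP inEShort_of inENP_of_short)

variable {O : Lang}

/-- Exponential time with short questions, for a fixed oracle `Z` in place of the complete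
language. -/
theorem et (hneg : ∀ C, TuringComplete O C → ConstRoundsComplete O C) {L : Lang}
    (hL : InENP O L) {ε : ℝ} (hε : 0 < ε) : ∃ (p : ℕ → ℕ) (a : ℕ),
    (∀ m, ∃ n0, ∀ n, n0 ≤ n → m < p n) ∧ (∀ n : ℕ, (p n : ℝ) ≤ a * (2 : ℝ) ^ (ε * n)) ∧
    ∀ Z : Lang, ∃ (c : Cmd) (k : ℕ), ∀ x : List Bool,
      (∀ u : List Bool, u.length = p x.length → Z u = UK O (SHQ.strip u)) →
        Dec (join O Z) c k L x := by
  refine et_core hL (fun C hC => ?_) hε
  obtain ⟨Q, V, rr, At, k1, hQ, hV, ⟨R, hR⟩, hQl, hF⟩ := cr_data ((hneg C hC).2 (UK O) UK_inNP)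
  exact ⟨Q, V, rr, At, k1, R, hQ, hV, hR, hQl, hF⟩

/-- **Exponential time with short questions.** -/
theorem inEShort_cr (hneg : ∀ C, TuringComplete O C → ConstRoundsComplete O C) {L : Lang}
    (hL : InENP O L) {ε : ℝ} (hε : 0 < ε) : InEShort O (UKp O) ε L := by
  obtain ⟨p, a, hp, hpa, hET⟩ := et hneg hL hε
  exact inEShort_of hp hpa hET

/-- **`E^NP` is the class of the languages in exponential time with short questions.** -/
theorem short_cr (hneg : ∀ C, TuringComplete O C → ConstRoundsComplete O C) :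
    ∃ B : Lang, InNP O B ∧ ∀ (ε : ℝ), 0 < ε → ∀ L : Lang, InENP O L ↔ InEShort O B ε L :=
  ⟨UKp O, UKp_inNP, fun _ hε _ => ⟨fun hL => inEShort_cr hneg hL hε, inENP_of_short UKp_inNP⟩⟩

end Pool.Agent.DET2
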